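import Mathlib

open Set TopologicalSpace Ordinal

namespace Pool.Agent.Results.MP_5675d3_gt.Psi

/-- Noetherian families. -/
def Noeth {X : Type} (A : Set (Set X)) : Prop :=
  A.Nonempty ∧ ∅ ∉ A ∧ ¬ ∃ c : ℕ → Set X, (∀ n, c n ∈ A) ∧ ∀ n, c n ⊂ c (n + 1)

/-- The layer `A_i`: the maximal elements of `A` minus the earlier layers. -/
noncomputable def layer {X : Type} (A : Set (Set X)) : Ordinal.{0} → Set (Set X) :=
  WellFoundedLT.fix fun i (r : ∀ j, j < i → Set (Set X)) =>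
    {U | Maximal (fun V => V ∈ A ∧ ∀ j (h : j < i), V ∉ r j h) U}

/-- The rank: the least `α` such that `A` is the union of the layers below `α`. -/
noncomputable def rank {X : Type} (A : Set (Set X)) : Ordinal.{0} :=
  sInf {α | A = ⋃ i < α, layer A i}

lemma mem_layer {X : Type} (A : Set (Set X)) (i : Ordinal.{0}) (U : Set X) :
    U ∈ layer A i ↔ Maximal (fun V => V ∈ A ∧ ∀ j < i, V ∉ layer A j) U := by
  rw [layer, WellFoundedLT.fix_eq]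
  rfl

lemma lower {X : Type} {A : Set (Set X)} {i : Ordinal.{0}} {U V : Set X} (hU : U ∈ layer A i)
    (hV : V ∈ A) (h : U ⊂ V) : ∃ j < i, V ∈ layer A j := by
  by_contra hc
  push Not at hc
  exact h.2 (((mem_layer A i U).1 hU).2 ⟨hV, hc⟩ h.1)

lemma upper {X : Type} {A : Set (Set X)} (R : Set X → Ordinal.{0} → Prop)
    (h : ∀ U i V, R U i → V ∈ A → U ⊂ V → ∃ j < i, R V j) (i : Ordinal.{0}) :
    ∀ U ∈ A, R U i → ∃ j ≤ i, U ∈ layer A j := by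
  induction i using WellFoundedLT.induction with
  | ind i ih =>
    intro U hU hR
    by_cases hc : ∃ j < i, U ∈ layer A j
    · obtain ⟨j, hj, h'⟩ := hc
      exact ⟨j, hj.le, h'⟩
    push Not at hc
    refine ⟨i, le_rfl, (mem_layer A i U).2 ⟨⟨hU, hc⟩, fun V hV hUV => ?_⟩⟩
    by_contra hn
    obtain ⟨j, hj, hRj⟩ := h U i V hR hV.1 ⟨hUV, hn⟩
    obtain ⟨k, hk, hk'⟩ := ih j hj V hV.1 hRj
    exact hV.2 k (hk.trans_lt hj) hk'

lemma mad : ∃ M : Set (ℕ ↪ ℝ), M.Pairwise (fun a b => (range a ∩ range b).Finite) ∧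
    ∀ s : ℕ ↪ ℝ, ∃ a ∈ M, (range s ∩ range a).Infinite := by
  obtain ⟨M, hM⟩ := zorn_subset {M : Set (ℕ ↪ ℝ) | M.Pairwise (fun a b => (range a ∩ range b).Finite)}
    (fun c hc hch => ⟨⋃₀ c, (pairwise_sUnion hch.directedOn).2 fun M hM => hc hM,
      fun s hs => subset_sUnion_of_mem hs⟩)
  refine ⟨M, hM.1, fun s => ?_⟩
  by_contra hn
  push Not at hn
  have h1 : insert s M ⊆ M := hM.2 (hM.1.insert fun b hb _ => ⟨hn b hb, by rw [inter_comm]; exact hn b hb⟩)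
    (subset_insert _ _)
  have h2 := hn s (h1 (mem_insert _ _))
  rw [inter_self] at h2
  exact infinite_range_of_injective s.injective h2

def U {M : Set (ℕ ↪ ℝ)} (a : M) (n : ℕ) : Set (ℝ ⊕ M) := insert (Sum.inr a) (Sum.inl '' (a.1 '' Ici n))

def B (M : Set (ℕ ↪ ℝ)) : Set (Set (ℝ ⊕ M)) := {S | (∃ d, S = {Sum.inl d}) ∨ ∃ a n, S = U a n}

variable {M : Set (ℕ ↪ ℝ)}

lemma inr_mem {a b : M} {n : ℕ} : Sum.inr b ∈ U a n ↔ b = a := by simp [U]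

lemma inl_mem {a : M} {n : ℕ} {d : ℝ} : Sum.inl d ∈ U a n ↔ ∃ i, n ≤ i ∧ a.1 i = d := by simp [U]

lemma U_mono (a : M) {n m : ℕ} (h : n ≤ m) : U a m ⊆ U a n := by
  rintro (d | b) hx
  · obtain ⟨i, hi, e⟩ := inl_mem.1 hx
    exact inl_mem.2 ⟨i, h.trans hi, e⟩
  · exact inr_mem.2 (inr_mem.1 hx)

lemma U_le {a : M} {n m : ℕ} (h : U a m ⊆ U a n) : n ≤ m := by
  obtain ⟨i, hi, e⟩ := inl_mem.1 (h (inl_mem.2 ⟨m, le_rfl, rfl⟩))
  rwa [a.1.injective e] at hi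

lemma of_inr {S : Set (ℝ ⊕ M)} (hS : S ∈ B M) {a : M} (h : Sum.inr a ∈ S) : ∃ n, S = U a n := by
  rcases hS with ⟨d, rfl⟩ | ⟨b, n, rfl⟩
  · simp at h
  · exact ⟨n, by rw [inr_mem.1 h]⟩

lemma basis : @IsTopologicalBasis _ (generateFrom (B M)) (B M) := by
  refine @IsTopologicalBasis.mk _ (generateFrom (B M)) _ ?_ ?_ rfl
  · rintro S hS T hT (d | a) hx
    · exact ⟨{Sum.inl d}, Or.inl ⟨d, rfl⟩, rfl, by simpa using hx⟩
    · obtain ⟨n, rfl⟩ := of_inr hS hx.1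
      obtain ⟨m, rfl⟩ := of_inr hT hx.2
      exact ⟨U a (max n m), Or.inr ⟨a, _, rfl⟩, inr_mem.2 rfl,
        subset_inter (U_mono a (le_max_left _ _)) (U_mono a (le_max_right _ _))⟩
  · refine eq_univ_of_forall ?_
    rintro (d | a)
    · exact ⟨{Sum.inl d}, Or.inl ⟨d, rfl⟩, rfl⟩
    · exact ⟨U a 0, Or.inr ⟨a, 0, rfl⟩, inr_mem.2 rfl⟩

def R (S : Set (ℝ ⊕ M)) (i : Ordinal.{0}) : Prop :=
  (∃ d, S = {Sum.inl d} ∧ i = ω) ∨ ∃ a, ∃ n : ℕ, S = U a n ∧ i = n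

lemma R_step (S : Set (ℝ ⊕ M)) (i : Ordinal.{0}) (V : Set (ℝ ⊕ M)) (h : R S i) (hV : V ∈ B M) (hs : S ⊂ V) :
    ∃ j < i, R V j := by
  rcases h with ⟨d, rfl, rfl⟩ | ⟨a, n, rfl, rfl⟩
  · rcases hV with ⟨e, rfl⟩ | ⟨b, m, rfl⟩
    · exact absurd (singleton_subset_singleton.2 (singleton_subset_singleton.1 hs.1).symm) hs.2
    · exact ⟨m, natCast_lt_omega0 m, Or.inr ⟨b, m, rfl, rfl⟩⟩
  · obtain ⟨m, rfl⟩ := of_inr hV (hs.1 (inr_mem.2 rfl))
    refine ⟨m, ?_, Or.inr ⟨a, m, rfl, rfl⟩⟩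
    have : m < n := lt_of_not_ge fun h => hs.2 (U_mono a h)
    exact_mod_cast this

lemma R_ex {S : Set (ℝ ⊕ M)} (hS : S ∈ B M) : ∃ i ≤ ω, R S i := by
  rcases hS with ⟨d, rfl⟩ | ⟨b, n, rfl⟩
  · exact ⟨ω, le_rfl, Or.inl ⟨d, rfl, rfl⟩⟩
  · exact ⟨n, (natCast_lt_omega0 n).le, Or.inr ⟨b, n, rfl, rfl⟩⟩

lemma rank_eq (hM : ∀ s : ℕ ↪ ℝ, ∃ a ∈ M, (range s ∩ range a).Infinite) {C : Set (Set (ℝ ⊕ M))}
    (hC : C ⊆ B M) (hb : @IsTopologicalBasis _ (generateFrom (B M)) C) : rank C = ω + 1 := by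
  letI := generateFrom (B M)
  have h1 : ω + 1 ∈ {α | C = ⋃ i < α, layer C i} := by
    refine subset_antisymm (fun S hS => ?_) (iUnion₂_subset fun i _ S hS => ((mem_layer _ _ _).1 hS).1.1)
    obtain ⟨i, hi, hR⟩ := R_ex (hC hS)
    obtain ⟨j, hj, h⟩ := upper R (fun U i V h hV => R_step U i V h (hC hV)) i S hS hR
    exact mem_iUnion₂.2 ⟨j, Order.lt_add_one_iff.2 (hj.trans hi), h⟩
  refine le_antisymm (csInf_le' h1) (Order.add_one_le_iff.2 (lt_of_not_ge fun hle => ?_))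
  have h2 : C = ⋃ i < rank C, layer C i := csInf_mem ⟨_, h1⟩
  have h3 : ∀ d : ℝ, ∃ k : ℕ, {Sum.inl d} ∈ layer C k := by
    intro d
    obtain ⟨V, hV, hd, hs⟩ := hb.exists_subset_of_mem_open (mem_singleton (Sum.inl d))
      (basis.isOpen (Or.inl ⟨d, rfl⟩))
    have e : V = {Sum.inl d} := subset_antisymm hs (singleton_subset_iff.2 hd)
    rw [e, h2] at hV
    obtain ⟨i, hi, h⟩ := mem_iUnion₂.1 hV
    obtain ⟨k, rfl⟩ := lt_omega0.1 (hi.trans_le hle)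
    exact ⟨k, h⟩
  choose k hk using h3
  obtain ⟨k0, hk0⟩ : ∃ k0, (k ⁻¹' {k0}).Infinite := by
    by_contra hn
    push Not at hn
    have : (⋃ k0, k ⁻¹' {k0}).Countable := countable_iUnion fun k0 => (hn k0).countable
    exact Cardinal.not_countable_real (this.mono fun d _ => mem_iUnion.2 ⟨k d, rfl⟩)
  obtain ⟨a, ha, hinf⟩ := hM ((hk0.natEmbedding _).trans (Function.Embedding.subtype _))
  have h4 : ∀ N, ∃ n, N ≤ n ∧ U ⟨a, ha⟩ n ∈ C := by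
    intro N
    obtain ⟨V, hV, hd, hs⟩ := hb.exists_subset_of_mem_open (inr_mem.2 rfl : Sum.inr ⟨a, ha⟩ ∈ U ⟨a, ha⟩ N)
      (basis.isOpen (Or.inr ⟨_, N, rfl⟩))
    obtain ⟨n, rfl⟩ := of_inr (hC hV) hd
    exact ⟨n, U_le hs, hV⟩
  have h5 : ∀ l : ℕ, ∃ n, U ⟨a, ha⟩ n ∈ C ∧ ∀ j, U ⟨a, ha⟩ n ∈ layer C j → (l : Ordinal.{0}) ≤ j := by
    intro l
    induction l with
    | zero =>
      obtain ⟨n, -, h⟩ := h4 0
      exact ⟨n, h, fun j _ => by simp⟩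
    | succ l ih =>
      obtain ⟨n, hn, h⟩ := ih
      obtain ⟨m, hm, hmC⟩ := h4 (n + 1)
      refine ⟨m, hmC, fun j hj => ?_⟩
      obtain ⟨i, hi, h'⟩ := lower hj hn ⟨U_mono _ (by omega), fun hs => by have := U_le hs; omega⟩
      push_cast
      exact Order.add_one_le_iff.2 ((h i h').trans_lt hi)
  obtain ⟨n, hn, h⟩ := h5 k0
  have h6 : (a ⁻¹' (range _ ∩ range a)).Infinite := hinf.preimage inter_subset_right
  obtain ⟨i, ⟨⟨t, ht⟩, -⟩, hi⟩ := h6.exists_gt n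
  have h7 : k (a i) = k0 := by
    rw [← ht]
    exact (hk0.natEmbedding _ t).2
  obtain ⟨j, hj, h'⟩ := lower (hk (a i)) hn ⟨singleton_subset_iff.2 (inl_mem.2 ⟨i, hi.le, rfl⟩),
    fun hs => by simpa using hs (inr_mem.2 rfl)⟩
  rw [h7] at hj
  exact (h j h').not_gt hj

/-- A Hausdorff space with a Noetherian base `B` of clopen sets whose rank `ω + 1` is not a cardinal,
such that every base contained in `B` has rank greater than `|rank B|`. -/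
theorem result : ∃ (X : Type) (_ : TopologicalSpace X) (B : Set (Set X)), T2Space X ∧
    IsTopologicalBasis B ∧ Noeth B ∧ (∀ S ∈ B, IsClopen S) ∧ rank B = ω + 1 ∧
    rank B ≠ (rank B).card.ord ∧
    ∀ C ⊆ B, IsTopologicalBasis C → (rank B).card.ord < rank C := by
  obtain ⟨M, hM, hmax⟩ := mad
  letI := generateFrom (B M)
  have hcl : ∀ S ∈ B M, IsClopen S := by
    intro S hS
    refine ⟨isOpen_compl_iff.1 (basis.isOpen_iff.2 ?_), basis.isOpen hS⟩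
    rintro (d | a) hx
    · exact ⟨{Sum.inl d}, Or.inl ⟨d, rfl⟩, rfl, singleton_subset_iff.2 hx⟩
    have : {i | Sum.inl (a.1 i) ∈ S}.Finite := by
      rcases hS with ⟨d, rfl⟩ | ⟨b, n, rfl⟩
      · exact ((finite_singleton d).preimage a.1.injective.injOn).subset fun i hi => by simpa using hi
      · have hab : a.1 ≠ b.1 := fun e => hx (inr_mem.2 (Subtype.ext e))
        refine ((hM a.2 b.2 hab).preimage a.1.injective.injOn).subset fun i hi => ⟨⟨i, rfl⟩, ?_⟩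
        obtain ⟨j, -, e⟩ := inl_mem.1 hi
        exact ⟨j, e⟩
    obtain ⟨N, hN⟩ := this.bddAbove
    refine ⟨U a (N + 1), Or.inr ⟨a, _, rfl⟩, inr_mem.2 rfl, ?_⟩
    rintro (d | b) hy hS'
    · obtain ⟨i, hi, rfl⟩ := inl_mem.1 hy
      have := hN hS'
      omega
    · exact hx (inr_mem.1 hy ▸ hS')
  have hr := rank_eq hmax Subset.rfl basis
  have hc : (rank (B M)).card.ord = ω := by
    rw [hr]
    simp
  refine ⟨ℝ ⊕ M, inferInstance, B M, ?_, basis, ⟨⟨_, Or.inl ⟨0, rfl⟩⟩, ?_, ?_⟩, hcl, hr, ?_, fun C hC hb => ?_⟩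
  · haveI : TotallySeparatedSpace (ℝ ⊕ M) := by
      refine totallySeparatedSpace_iff_exists_isClopen.2 ?_
      rintro (d | a) y hxy
      · exact ⟨{Sum.inl d}, hcl _ (Or.inl ⟨d, rfl⟩), rfl, hxy.symm⟩
      rcases y with d | b
      · exact ⟨{Sum.inl d}ᶜ, (hcl _ (Or.inl ⟨d, rfl⟩)).compl, hxy, fun h => h rfl⟩
      · exact ⟨U a 0, hcl _ (Or.inr ⟨a, 0, rfl⟩), inr_mem.2 rfl, fun h => hxy (by rw [inr_mem.1 h])⟩
    infer_instance
  · rintro (⟨d, h⟩ | ⟨a, n, h⟩)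
    · exact (singleton_nonempty _).ne_empty h.symm
    · exact (insert_nonempty _ _).ne_empty h.symm
  · rintro ⟨c, hc, hlt⟩
    have : ∀ i, ∀ n, ¬ R (c n) i := by
      intro i
      induction i using WellFoundedLT.induction with
      | ind i ih =>
        intro n hR
        obtain ⟨j, hj, h⟩ := R_step _ i _ hR (hc (n + 1)) (hlt n)
        exact ih j hj _ h
    obtain ⟨i, -, h⟩ := R_ex (hc 0)
    exact this i 0 h
  · rw [hc, hr]
    exact (Order.lt_add_one_iff.2 le_rfl).ne'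
  · rw [hc, rank_eq hmax hC hb]
    exact Order.lt_add_one_iff.2 le_rfl

end Pool.Agent.Results.MP_5675d3_gt.Psi
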